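import Pool.Agent.MP_6cbd4a_an.Limit
import Pool.Agent.MP_6cbd4a_an.Rep

/-!
# An indestructible Blaschke product that is not a maximal Blaschke product

Functions on the unit disc `𝔻` are modelled by functions `ℂ → ℂ`; only their values on `𝔻` matter.
-/

set_option autoImplicit false

namespace Pool.Agent.Results.MP_6cbd4a_an.IndestructibleNotMaximal

open Complex Metric Set Filter Topology
open scoped ComplexConjugate

/-- The open unit disc. -/
def Disc : Set ℂ := ball 0 1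

/-- The elementary Blaschke factor `(|a| / a) * (a - z) / (1 - conj a * z)`. -/
noncomputable def factor (a z : ℂ) : ℂ :=
  ((‖a‖ : ℝ) : ℂ) / a * ((a - z) / (1 - conj a * z))

/-- `B` is a Blaschke product on the unit disc:
`B z = exp (i θ) * z ^ k * ∏ (|a n| / a n) * (a n - z) / (1 - conj (a n) * z)`, the (unconditionally
convergent) product being over a countable (finite or infinite) family of points `a n ≠ 0` of the
unit disc with `∑ (1 - |a n|) < ∞`. -/
def IsBlaschke (B : ℂ → ℂ) : Prop :=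
  ∃ (θ : ℝ) (k : ℕ) (ι : Type) (a : ι → ℂ), Countable ι ∧ (∀ n, a n ≠ 0 ∧ ‖a n‖ < 1) ∧
    Summable (fun n => 1 - ‖a n‖) ∧
    ∀ z ∈ Disc, ∃ p : ℂ, HasProd (fun n => factor (a n) z) p ∧ B z = exp (θ * I) * z ^ k * p

/-- `T` is a conformal automorphism of the unit disc: a holomorphic self-map of the disc with a
holomorphic inverse. -/
def IsAut (T : ℂ → ℂ) : Prop :=
  DifferentiableOn ℂ T Disc ∧ MapsTo T Disc Disc ∧ ∃ T' : ℂ → ℂ, DifferentiableOn ℂ T' Disc ∧
    MapsTo T' Disc Disc ∧ (∀ z ∈ Disc, T' (T z) = z) ∧ ∀ z ∈ Disc, T (T' z) = z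

/-- `B` is an indestructible Blaschke product: `B` is a Blaschke product and so is `T ∘ B` for
every conformal automorphism `T` of the disc. -/
def IsIndestructible (B : ℂ → ℂ) : Prop :=
  IsBlaschke B ∧ ∀ T : ℂ → ℂ, IsAut T → IsBlaschke fun z => T (B z)

/-- `f` is a nonconstant bounded analytic function on the disc. -/
def IsNonconstHinf (f : ℂ → ℂ) : Prop :=
  DifferentiableOn ℂ f Disc ∧ (∃ M : ℝ, ∀ z ∈ Disc, ‖f z‖ ≤ M) ∧ ∃ z ∈ Disc, ∃ w ∈ Disc, f z ≠ f w

/-- A sequence of points of the disc is modelled by the function `C` counting how often each point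
`z` of the disc occurs. It is an `H^∞` critical set if it is the critical set of a nonconstant
`f ∈ H^∞`: each `z` in the disc occurs as often as its multiplicity as a zero of `f'` says. -/
def IsCriticalSet (C : ℂ → ℕ) : Prop :=
  ∃ f : ℂ → ℂ, IsNonconstHinf f ∧ ∀ z ∈ Disc, (C z : ℕ∞) = analyticOrderAt (deriv f) z

/-- `f` is in the unit ball of `H^∞` and `f' = 0` on `C` (with multiplicities). -/
def IsCompetitor (C : ℂ → ℕ) (f : ℂ → ℂ) : Prop :=
  DifferentiableOn ℂ f Disc ∧ (∀ z ∈ Disc, ‖f z‖ ≤ 1) ∧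
    ∀ z ∈ Disc, (C z : ℕ∞) ≤ analyticOrderAt (deriv f) z

/-- `F` solves the extremal problem for `C`: it maximises `Re f^(N+1)(0)`, `N = C 0`, among all
competitors. -/
def IsExtremal (C : ℂ → ℕ) (F : ℂ → ℂ) : Prop :=
  IsCompetitor C F ∧ ∀ f : ℂ → ℂ, IsCompetitor C f →
    (iteratedDeriv (C 0 + 1) f 0).re ≤ (iteratedDeriv (C 0 + 1) F 0).re

/-- `B` is a maximal Blaschke product: `B = T ∘ F` on the disc, where `F` is extremal for some
`H^∞` critical set `C` and `T` is a conformal automorphism of the disc. -/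
def IsMaximal (B : ℂ → ℂ) : Prop :=
  ∃ (C : ℂ → ℕ) (F T : ℂ → ℂ), IsCriticalSet C ∧ IsExtremal C F ∧ IsAut T ∧
    ∀ z ∈ Disc, B z = T (F z)

open Pool.Agent.MP_6cbd4a_an in
lemma blaschke_of_aut {f : ℂ → ℂ} (hf : Adm f)
    (hg : ∀ a : ℂ, ‖a‖ < 1 → ∀ ε : ℝ, 0 < ε → Good f a ε) {T : ℂ → ℂ} (hT : IsAut T) :
    IsBlaschke fun z => T (f z) := by
  obtain ⟨h1, h2, T', h3, h4, h5, h6⟩ := hT
  obtain ⟨a, c, ha, hc, hTac⟩ := aut_form h1 h2 h3 h4 h5 h6
  obtain ⟨c', m, Z, hc', hZc, hZ, hsum, hrep⟩ := rep hf ha (hg a ha)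
  have hcc : ‖c * c'‖ = 1 := by rw [norm_mul, hc, hc', one_mul]
  obtain ⟨θ, hθ⟩ := (Complex.norm_eq_one_iff _).1 hcc
  refine ⟨θ, m, Z, fun w => (w : ℂ), Set.countable_coe_iff.2 hZc, fun w => hZ w w.2, hsum, ?_⟩
  intro z hz
  obtain ⟨p, hp1, hp2⟩ := hrep z hz
  refine ⟨p, hp1, ?_⟩
  have hfz : f z ∈ ball (0 : ℂ) 1 := mem_ball_zero_iff.2 (hf.maps z hz)
  show T (f z) = _
  rw [hTac _ hfz, hp2, hθ]
  ring

lemma isAut_id : IsAut fun z => z :=
  ⟨differentiableOn_id, fun _ h => h, fun z => z, differentiableOn_id, fun _ h => h,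
    fun _ _ => rfl, fun _ _ => rfl⟩

open Pool.Agent.MP_6cbd4a_an in
lemma not_maximal {f : ℂ → ℂ} (hf : Adm f)
    (hninj : ∃ z₁ ∈ ball (0 : ℂ) 1, ∃ z₂ ∈ ball (0 : ℂ) 1, z₁ ≠ z₂ ∧ f z₁ = f z₂) :
    ¬ IsMaximal f := by
  rintro ⟨C, F, T, -, ⟨⟨hFd, hFb, hFC⟩, hFmax⟩, ⟨hT1, hT2, T', hT3, hT4, hT5, hT6⟩, hfTF⟩
  have h0b : (0 : ℂ) ∈ ball (0 : ℂ) 1 := mem_ball_self one_pos
  have hFm : ∀ z ∈ ball (0 : ℂ) 1, ‖F z‖ < 1 := by
    intro z hz
    refine lt_of_le_of_ne (hFb z hz) ?_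
    intro heq
    have hmax : IsMaxOn (norm ∘ F) (ball 0 1) z := by
      intro u hu
      simp only [Set.mem_ofPred_eq, Function.comp_apply, heq]
      exact hFb u hu
    have h1 := Complex.eqOn_of_isPreconnected_of_isMaxOn_norm
      (convex_ball (0 : ℂ) 1).isPreconnected isOpen_ball hFd hz hmax
    have h2 : f =ᶠ[𝓝 0] fun _ => T (F z) := by
      filter_upwards [isOpen_ball.mem_nhds h0b] with u hu
      rw [hfTF u hu, h1 hu]
      rfl
    apply hf.der 0 h0b
    rw [h2.deriv_eq]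
    simp
  have hFder : ∀ z ∈ ball (0 : ℂ) 1, deriv F z ≠ 0 := by
    intro z hz h0
    have hFz : F z ∈ ball (0 : ℂ) 1 := mem_ball_zero_iff.2 (hFm z hz)
    have h1 : HasDerivAt F (deriv F z) z :=
      (hFd.differentiableAt (isOpen_ball.mem_nhds hz)).hasDerivAt
    have h2 : HasDerivAt T (deriv T (F z)) (F z) :=
      (hT1.differentiableAt (isOpen_ball.mem_nhds hFz)).hasDerivAt
    have h3 := h2.comp z h1
    rw [h0, mul_zero] at h3
    have h4 : f =ᶠ[𝓝 z] T ∘ F := by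
      filter_upwards [isOpen_ball.mem_nhds hz] with u hu
      exact hfTF u hu
    apply hf.der z hz
    rw [h4.deriv_eq, h3.deriv]
  have hFan : AnalyticOnNhd ℂ (deriv F) (ball 0 1) := (hFd.deriv isOpen_ball).analyticOnNhd isOpen_ball
  have hC0 : ∀ z ∈ ball (0 : ℂ) 1, C z = 0 := by
    intro z hz
    have h1 := hFC z hz
    rw [(hFan z hz).analyticOrderAt_eq_zero.2 (hFder z hz)] at h1
    exact_mod_cast nonpos_iff_eq_zero.1 h1
  have hid : IsCompetitor C fun z => z := by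
    refine ⟨differentiableOn_id, fun z hz => (mem_ball_zero_iff.1 hz).le, fun z hz => ?_⟩
    rw [hC0 z hz]
    exact zero_le
  have h1 := hFmax _ hid
  rw [hC0 0 h0b, zero_add, iteratedDeriv_one, iteratedDeriv_one] at h1
  have hderid : deriv (fun z : ℂ => z) 0 = 1 := deriv_id 0
  rw [hderid, Complex.one_re] at h1
  have hinj := schwarz_extremal hFd hFm h1
  obtain ⟨z₁, hz₁, z₂, hz₂, hne, heq⟩ := hninj
  apply hne
  apply hinj hz₁ hz₂
  rw [hfTF z₁ hz₁, hfTF z₂ hz₂] at heq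
  have h2 := congrArg T' heq
  rwa [hT5 _ (mem_ball_zero_iff.2 (hFm z₁ hz₁)), hT5 _ (mem_ball_zero_iff.2 (hFm z₂ hz₂))] at h2

/-- There is an indestructible Blaschke product which is not a maximal Blaschke product; it can be
chosen with nowhere vanishing derivative and not injective. -/
theorem result : ∃ B : ℂ → ℂ, IsIndestructible B ∧ (∀ z ∈ Disc, deriv B z ≠ 0) ∧
    ¬ InjOn B Disc ∧ ¬ IsMaximal B := by
  obtain ⟨f, hf, hninj, hg⟩ := Pool.Agent.MP_6cbd4a_an.exists_limit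
  refine ⟨f, ⟨blaschke_of_aut hf hg isAut_id, fun T hT => blaschke_of_aut hf hg hT⟩, hf.der, ?_,
    not_maximal hf hninj⟩
  intro hinj
  obtain ⟨z₁, hz₁, z₂, hz₂, hne, heq⟩ := hninj
  exact hne (hinj hz₁ hz₂ heq)

end Pool.Agent.Results.MP_6cbd4a_an.IndestructibleNotMaximal
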